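import Pool.Agent.N483.KM.StmW

/-!
# The body over a log-concave weight
-/

set_option autoImplicit false

namespace Pool.Agent.N385.KM

open MeasureTheory Set Filter Topology
open scoped ENNReal InnerProductSpace Pointwise
open Pool.Agent.R754.KG (E)
open Pool.Agent.R755.KF (CB)
open Pool.Agent.Y506.PV (LCn)
open Pool.Agent.Y506.RG (Adm)
open Pool.Agent.N483.KM (LW gM BW qb S_BWG)

variable {n : ℕ}

theorem gM_of_le {w : E n → ℝ} {M : ℕ} (hM : 1 ≤ M) {x : E n} (h : Real.exp (-M) ≤ w x) :
    gM w M x = 1 + Real.log (w x) / M ∧ 0 ≤ gM w M x := by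
  have hM0 : (0 : ℝ) < M := by exact_mod_cast hM
  have hw : 0 < w x := (Real.exp_pos _).trans_le h
  have hl : -(M : ℝ) ≤ Real.log (w x) := by
    rw [Real.le_log_iff_exp_le hw]
    exact h
  have h1 : -1 ≤ Real.log (w x) / M := by
    rw [le_div_iff₀ hM0]
    linarith
  have hg : gM w M x = 1 + Real.log (w x) / M := by
    unfold gM
    rw [if_pos hw, max_eq_left]
    linarith
  refine ⟨hg, ?_⟩
  rw [hg]
  linarith

theorem gM_of_gt {w : E n → ℝ} {M : ℕ} (hM : 1 ≤ M) {x : E n} (h : w x < Real.exp (-M)) :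
    gM w M x = 0 := by
  have hM0 : (0 : ℝ) < M := by exact_mod_cast hM
  unfold gM
  split_ifs with hw
  · rw [max_eq_right]
    have hl : Real.log (w x) < -(M : ℝ) := by
      rw [Real.log_lt_iff_lt_exp hw]
      exact h
    have h1 : Real.log (w x) / M < -1 := by
      rw [div_lt_iff₀ hM0]
      linarith
    linarith
  · rfl

/-- membership in the body -/
theorem mem_BW {w : E n → ℝ} {M : ℕ} (hM : 1 ≤ M) (z : E n × E M) :
    z ∈ BW w M ↔ Real.exp (-M) ≤ w z.1 ∧ ∀ i, Real.exp (M * (2 * |z.2 i| - 1)) ≤ w z.1 := by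
  have hM0 : (0 : ℝ) < M := by exact_mod_cast hM
  unfold BW
  simp only [mem_ofPred_eq]
  refine and_congr_right fun h => forall_congr' fun i => ?_
  have hw : 0 < w z.1 := (Real.exp_pos _).trans_le h
  rw [(gM_of_le hM h).1, ← Real.le_log_iff_exp_le hw]
  constructor
  · intro h1
    have h2 : 2 * |z.2 i| - 1 ≤ Real.log (w z.1) / M := by linarith
    rw [le_div_iff₀ hM0] at h2
    linarith
  · intro h1
    have h2 : 2 * |z.2 i| - 1 ≤ Real.log (w z.1) / M := by
      rw [le_div_iff₀ hM0]
      linarith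
    linarith

theorem epi {w : E n → ℝ} (h : LCn w) {x x' : E n} {s s' a b : ℝ} (hs : Real.exp s ≤ w x)
    (hs' : Real.exp s' ≤ w x') (ha : 0 ≤ a) (hb : 0 ≤ b) (hab : a + b = 1) :
    Real.exp (a * s + b * s') ≤ w (a • x + b • x') := by
  rcases ha.eq_or_lt with rfl | ha
  · have : b = 1 := by linarith
    subst this
    simpa using hs'
  rcases hb.eq_or_lt with rfl | hb
  · have : a = 1 := by linarith
    subst this
    simpa using hs
  have h1 := h x x' b hb (by linarith)
  have e : 1 - b = a := by linarith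
  rw [e] at h1
  refine le_trans ?_ h1
  rw [Real.exp_add, mul_comm a s, mul_comm b s', Real.exp_mul, Real.exp_mul]
  exact mul_le_mul (Real.rpow_le_rpow (Real.exp_pos _).le hs ha.le)
    (Real.rpow_le_rpow (Real.exp_pos _).le hs' hb.le) (by positivity)
    (Real.rpow_nonneg ((Real.exp_pos _).le.trans hs) _)

theorem closed_epi {w : E n → ℝ} (h : LW w) :
    IsClosed {p : E n × ℝ | Real.exp p.2 ≤ w p.1} := by
  have e : {p : E n × ℝ | Real.exp p.2 ≤ w p.1} = ⋂ c : {c : ℝ // 0 < c},
      ({p : E n × ℝ | c.1 ≤ w p.1} ∪ {p | Real.exp p.2 ≤ c.1}) := by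
    ext p
    simp only [mem_ofPred_eq, mem_iInter, mem_union, Subtype.forall]
    constructor
    · intro h1 c _
      rcases le_or_gt c (w p.1) with h2 | h2
      · exact Or.inl h2
      · exact Or.inr (h1.trans h2.le)
    · intro h1
      by_contra h2
      rw [not_le] at h2
      obtain ⟨c, hc1, hc2⟩ := exists_between h2
      rcases h1 c ((h.adm.nonneg _).trans_lt hc1) with h3 | h3
      · linarith
      · linarith
  rw [e]
  refine isClosed_iInter fun c => IsClosed.union ?_ ?_
  · exact (h.comp c.1 c.2).isClosed.preimage continuous_fst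
  · exact isClosed_le (Real.continuous_exp.comp continuous_snd) continuous_const

/-- boxes -/
def bx (M : ℕ) (C : ℝ) : Set (E M) := {y | ∀ i, |y i| ≤ C}

theorem cont_coord (M : ℕ) (i : Fin M) : Continuous fun y : E M => y i :=
  (EuclideanSpace.proj (𝕜 := ℝ) i : E M →L[ℝ] ℝ).continuous

theorem closed_bx (M : ℕ) (C : ℝ) : IsClosed (bx M C) := by
  have : bx M C = ⋂ i : Fin M, {y : E M | |y i| ≤ C} := by
    ext y
    simp [bx]
  rw [this]
  exact isClosed_iInter fun i => isClosed_le (cont_coord M i).abs continuous_const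

theorem compact_bx (M : ℕ) (C : ℝ) : IsCompact (bx M C) := by
  refine Metric.isCompact_of_isClosed_isBounded (closed_bx M C) ?_
  refine (Metric.isBounded_closedBall (x := (0 : E M)) (r := Real.sqrt (∑ _i : Fin M, C ^ 2))).subset
    fun y hy => ?_
  rw [mem_closedBall_zero_iff, EuclideanSpace.norm_eq]
  refine Real.sqrt_le_sqrt (Finset.sum_le_sum fun i _ => ?_)
  rw [Real.norm_eq_abs]
  exact pow_le_pow_left₀ (abs_nonneg _) (hy i) 2

theorem pos_bx (M : ℕ) {C : ℝ} (hC : 0 < C) : 0 < volume (bx M C) := by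
  have ho : IsOpen {y : E M | ∀ i, |y i| < C} := by
    have : {y : E M | ∀ i, |y i| < C} = ⋂ i : Fin M, {y : E M | |y i| < C} := by
      ext y
      simp
    rw [this]
    exact isOpen_iInter_of_finite fun i => isOpen_lt (cont_coord M i).abs continuous_const
  refine (ho.measure_pos volume ⟨0, fun i => by simpa using hC⟩).trans_le
    (measure_mono fun y hy i => (hy i).le)

theorem closed_BW {w : E n → ℝ} (h : LW w) {M : ℕ} (hM : 1 ≤ M) : IsClosed (BW w M) := by
  have e : BW w M = {z | Real.exp (-M) ≤ w z.1} ∩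
      ⋂ i : Fin M, {z : E n × E M | Real.exp (M * (2 * |z.2 i| - 1)) ≤ w z.1} := by
    ext z
    rw [mem_BW hM]
    simp
  rw [e]
  refine IsClosed.inter ?_ (isClosed_iInter fun i => ?_)
  · exact (closed_epi h).preimage (continuous_fst.prodMk continuous_const :
      Continuous fun z : E n × E M => (z.1, -(M : ℝ)))
  · have hc : Continuous fun z : E n × E M => (z.1, (M : ℝ) * (2 * |z.2 i| - 1)) :=
      continuous_fst.prodMk (continuous_const.mul ((continuous_const.mul
        ((cont_coord M i).comp continuous_snd).abs).sub continuous_const))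
    exact (closed_epi h).preimage hc

theorem compact_BW {w : E n → ℝ} (h : LW w) {M : ℕ} (hM : 1 ≤ M) : IsCompact (BW w M) := by
  have hM0 : (0 : ℝ) < M := by exact_mod_cast hM
  obtain ⟨B, hB⟩ := h.bdd
  refine ((h.comp _ (Real.exp_pos (-(M : ℝ)))).prod
    (compact_bx M ((1 + Real.log B / M) / 2))).of_isClosed_subset (closed_BW h hM) fun z hz => ?_
  rw [mem_BW hM] at hz
  refine ⟨hz.1, fun i => ?_⟩
  have hB0 : 0 < B := (Real.exp_pos _).trans_le (hz.1.trans (hB _))
  have h1 := (hz.2 i).trans (hB _)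
  rw [← Real.le_log_iff_exp_le hB0] at h1
  have h2 : 2 * |z.2 i| - 1 ≤ Real.log B / M := by
    rw [le_div_iff₀ hM0]
    linarith
  linarith

theorem convex_BW {w : E n → ℝ} (h : LW w) {M : ℕ} (hM : 1 ≤ M) : Convex ℝ (BW w M) := by
  have hM0 : (0 : ℝ) < M := by exact_mod_cast hM
  intro z hz z' hz' a b ha hb hab
  rw [mem_BW hM] at hz hz' ⊢
  refine ⟨?_, fun i => ?_⟩
  · have h1 := epi h.lc hz.1 hz'.1 ha hb hab
    have e : a * -(M : ℝ) + b * -(M : ℝ) = -M := by
      rw [← add_mul, hab, one_mul]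
    rw [e] at h1
    exact h1
  · have h1 := epi h.lc (hz.2 i) (hz'.2 i) ha hb hab
    refine le_trans (Real.exp_le_exp.2 ?_) h1
    have e : (a • z + b • z').2 i = a * z.2 i + b * z'.2 i := by
      simp
    rw [e]
    have h2 : |a * z.2 i + b * z'.2 i| ≤ a * |z.2 i| + b * |z'.2 i| := by
      refine (abs_add_le _ _).trans ?_
      rw [abs_mul, abs_mul, abs_of_nonneg ha, abs_of_nonneg hb]
    have h3 : a * ((M : ℝ) * (2 * |z.2 i| - 1)) + b * ((M : ℝ) * (2 * |z'.2 i| - 1)) =
        M * (2 * (a * |z.2 i| + b * |z'.2 i|) - (a + b)) := by ring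
    rw [h3, hab]
    exact mul_le_mul_of_nonneg_left (by linarith) hM0.le

theorem exists_level {w : E n → ℝ} (h : LW w) : ∃ c : ℝ, 0 < c ∧ 0 < volume {x | c ≤ w x} := by
  by_contra hc
  push Not at hc
  have h0 : volume {x | 0 < w x} = 0 := by
    have e : {x | 0 < w x} ⊆ ⋃ k : ℕ, {x | 1 / ((k : ℝ) + 1) ≤ w x} := by
      intro x hx
      obtain ⟨k, hk⟩ := exists_nat_one_div_lt (show (0 : ℝ) < w x from hx)
      exact mem_iUnion.2 ⟨k, hk.le⟩
    refine measure_mono_null e (measure_iUnion_null fun k => ?_)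
    exact le_antisymm (hc _ (by positivity)) bot_le
  have h1 : ∫ x, w x = 0 := by
    refine integral_eq_zero_of_ae ?_
    rw [Filter.EventuallyEq, ae_iff]
    refine measure_mono_null (fun x hx => ?_) h0
    exact lt_of_le_of_ne (h.adm.nonneg x) (fun e => hx e.symm)
  exact absurd h1 h.adm.pos.ne'

theorem pos_BW {w : E n → ℝ} (h : LW w) : ∀ᶠ M : ℕ in atTop, 0 < volume (BW w M) := by
  obtain ⟨c, hc, hv⟩ := exists_level h
  obtain ⟨M0, hM0⟩ := exists_nat_gt (-Real.log c)
  filter_upwards [eventually_ge_atTop (max 1 M0)] with M hM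
  have hM1 : 1 ≤ M := (le_max_left _ _).trans hM
  have hMp : (0 : ℝ) < M := by exact_mod_cast hM1
  have hM2 : -Real.log c < M := by
    refine hM0.trans_le ?_
    exact_mod_cast (le_max_right _ _).trans hM
  have hr : 0 < (1 + Real.log c / M) / 2 := by
    have : -1 < Real.log c / M := by
      rw [lt_div_iff₀ hMp]
      linarith
    linarith
  have hsub : {x | c ≤ w x} ×ˢ bx M ((1 + Real.log c / M) / 2) ⊆ BW w M := by
    rintro z ⟨hz1, hz2⟩
    rw [mem_BW hM1]
    have hz1' : c ≤ w z.1 := hz1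
    refine ⟨le_trans ?_ hz1', fun i => le_trans ?_ hz1'⟩
    · rw [← Real.le_log_iff_exp_le hc]
      linarith
    · rw [← Real.le_log_iff_exp_le hc]
      have h1 : |z.2 i| ≤ (1 + Real.log c / M) / 2 := hz2 i
      have h2 : 2 * |z.2 i| - 1 ≤ Real.log c / M := by linarith
      rw [le_div_iff₀ hMp] at h2
      linarith
  refine lt_of_lt_of_le ?_ (measure_mono hsub)
  rw [Measure.volume_eq_prod, Measure.prod_prod]
  exact ENNReal.mul_pos hv.ne' (pos_bx M hr).ne'

theorem smul_qb (M : ℕ) {g : ℝ} (hg : 0 < g) : g • qb M = bx M (g / 2) := by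
  ext y
  rw [mem_smul_set_iff_inv_smul_mem₀ hg.ne']
  unfold qb bx
  simp only [mem_ofPred_eq]
  refine forall_congr' fun i => ?_
  have e : (g⁻¹ • y) i = g⁻¹ * y i := by simp
  rw [e, abs_mul, abs_of_pos (inv_pos.2 hg), inv_mul_le_iff₀ hg]
  constructor <;> intro h <;> linarith

theorem inner_eq {w : E n → ℝ} {M : ℕ} (hM : 1 ≤ M) (F : E n × E M → ℝ) (x : E n) :
    ∫ y, (BW w M).indicator F (x, y) =
      (∫ u in qb M, F (x, gM w M x • u)) * gM w M x ^ M := by
  rcases lt_or_ge (w x) (Real.exp (-M)) with hx | hx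
  · have e : ∀ y, (BW w M).indicator F (x, y) = 0 := fun y => by
      rw [indicator_of_notMem]
      intro hm
      exact absurd hm.1 (not_le.2 hx)
    simp only [e]
    rw [gM_of_gt hM hx, zero_pow (by omega), mul_zero]
    simp
  obtain ⟨-, hg⟩ := gM_of_le hM hx
  have e : ∀ y, (BW w M).indicator F (x, y) =
      (bx M (gM w M x / 2)).indicator (fun y => F (x, y)) y := fun y => by
    by_cases hy : y ∈ bx M (gM w M x / 2)
    · rw [indicator_of_mem hy, indicator_of_mem]
      exact ⟨hx, hy⟩
    · rw [indicator_of_notMem hy, indicator_of_notMem]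
      intro hm
      exact hy hm.2
  simp only [e]
  rw [integral_indicator (closed_bx M _).measurableSet]
  rcases hg.eq_or_lt with hg | hg
  · rw [← hg, zero_pow (by omega), mul_zero]
    have h0 : volume (bx M ((0 : ℝ) / 2)) = 0 := by
      have : Nonempty (Fin M) := ⟨⟨0, by omega⟩⟩
      have : Nontrivial (E M) := inferInstance
      refine measure_mono_null (t := {(0 : E M)}) (fun y hy => ?_) (measure_singleton _)
      rw [mem_singleton_iff]
      ext i
      have := hy i
      rw [zero_div] at this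
      simpa using abs_nonpos_iff.1 this
    exact setIntegral_measure_zero _ h0
  · rw [← smul_qb M hg, Measure.setIntegral_comp_smul_of_pos volume (fun y => F (x, y)) _ hg,
      finrank_euclideanSpace_fin, smul_eq_mul, mul_comm, ← mul_assoc,
      mul_inv_cancel₀ (pow_ne_zero _ hg.ne'), one_mul]

theorem t_BWG : S_BWG := by
  intro n w h
  filter_upwards [pos_BW h, eventually_ge_atTop 1] with M hp hM
  refine ⟨⟨convex_BW h hM, compact_BW h hM, hp⟩, fun F hF => ?_⟩
  have hm : MeasurableSet (BW w M) := (closed_BW h hM).measurableSet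
  have hi : Integrable ((BW w M).indicator F) volume :=
    (hF.continuousOn.integrableOn_compact (compact_BW h hM)).integrable_indicator hm
  rw [← integral_indicator hm]
  rw [Measure.volume_eq_prod] at hi ⊢
  rw [integral_prod _ hi]
  exact integral_congr_ae (Eventually.of_forall fun x => inner_eq hM F x)

end Pool.Agent.N385.KM
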